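import Pool.Agent.H699.TA.PolyC

/-!
# An approximation scheme for separable indefinite quadratic integer programs with totally
unimodular constraints and a fixed number of concave variables

For every fixed number `p` of concave variables and every `ε > 0` there is a polynomial-time
algorithm which recognises infeasible instances, returns a feasible point of every feasible
instance, and this point is an `ε`-approximate solution as soon as the objective is bounded below
(so that an optimal solution exists).  The running time is also polynomial in `1 / ε`.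
-/

namespace Pool.Agent.Results.MP_ed7369_lc.ApproximationScheme

open Pool.Agent.NPC Pool.Agent.H699.TU

theorem result (p : ℕ) :
    (∀ ε : ℝ, 0 < ε → ∃ A : List Bool → List Bool, PolyTime A ∧ ∀ I : Inst, Valid I →
      ((¬ ∃ x, Feasible I x) → A (bits I) = infeasible) ∧
      ((∃ x, Feasible I x) → ∃ x, Feasible I x ∧ A (bits I) = point I x ∧
        (numConcave I ≤ p → IsApprox I ε x))) ∧
    (∃ A : List Bool → List Bool, PolyTime A ∧ ∀ (I : Inst) (k : ℕ), Valid I → 0 < k →
      ((¬ ∃ x, Feasible I x) → A (bits (I, List.replicate k ())) = infeasible) ∧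
      ((∃ x, Feasible I x) → ∃ x, Feasible I x ∧ A (bits (I, List.replicate k ())) = point I x ∧
        (numConcave I ≤ p → IsApprox I (1 / k) x))) ∧
    (∀ I : Inst, (∃ x, Feasible I x) → ¬ UnboundedBelow I → ∃ y, IsOptimal I y) := by
  refine ⟨fun ε hε => Pool.Agent.H699.TA.main p hε, Pool.Agent.H699.TA.main' p, ?_⟩
  intro I ⟨x0, hx0⟩ hu
  unfold UnboundedBelow at hu
  push Not at hu
  obtain ⟨b, hb⟩ := hu
  obtain ⟨m, ⟨y, hy, hym⟩, hmin⟩ := Int.exists_least_of_bdd (P := fun z : ℤ =>
    ∃ y, Feasible I y ∧ obj I y = z) ⟨b, by rintro z ⟨y, hy, rfl⟩; exact hb y hy⟩ ⟨_, x0, hx0, rfl⟩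
  exact ⟨y, hy, fun z hz => hym ▸ hmin _ ⟨z, hz, rfl⟩⟩

end Pool.Agent.Results.MP_ed7369_lc.ApproximationScheme
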