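import Pool.Graph.R_seed8.NPC.Dec
import Pool.Agent.H699.TA.PolyC
import Pool.Agent.H699.TU.Final

/-!
# Separable indefinite quadratic integer programs with totally unimodular constraints: the answer

For every fixed number `p` of concave variables and every `ε > 0` everything the question asks for,
except recognising unboundedness, can be done in polynomial time: infeasible instances are
recognised, and every feasible instance gets a feasible point, which is an `ε`-approximate solution
whenever the objective is bounded below.  Recognising unboundedness is `NP`-hard already with two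
concave variables, so that for `p ≥ 2` the algorithm of the question exists only if `P = NP`.
-/

namespace Pool.Agent.Results.MP_ed7369_lc.Resolution

open Pool.Agent.NPC Pool.Agent.H699.TU

theorem result :
    (∀ p : ℕ, ∀ ε : ℝ, 0 < ε → ∃ A : List Bool → List Bool, PolyTime A ∧ ∀ I : Inst, Valid I →
      ((¬ ∃ x, Feasible I x) → A (bits I) = infeasible) ∧
      ((∃ x, Feasible I x) → ∃ x, Feasible I x ∧ A (bits I) = point I x ∧
        (numConcave I ≤ p → IsApprox I ε x))) ∧
    (∀ I : Inst, (∃ x, Feasible I x) → ¬ UnboundedBelow I → ∃ y, IsOptimal I y) ∧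
    (∀ L : Set (List Bool), InNP L → ∃ f : List Bool → Inst, PolyTime (fun x => bits (f x)) ∧
      ∀ x, Valid (f x) ∧ numConcave (f x) ≤ 2 ∧ (∃ y, Feasible (f x) y) ∧
        (UnboundedBelow (f x) ↔ x ∈ L)) ∧
    (∀ p : ℕ, 2 ≤ p → ∀ ε : ℝ, (∃ A : List Bool → List Bool, PolyTime A ∧ Solves p ε A) →
      ∀ L : Set (List Bool), InNP L → InP L) := by
  have key : ∀ L : Set (List Bool), InNP L → ∃ f : List Bool → Inst,
      PolyTime (fun x => bits (f x)) ∧
      ∀ x, Valid (f x) ∧ numConcave (f x) ≤ 2 ∧ (∃ y, Feasible (f x) y) ∧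
        (x ∈ L → UnboundedBelow (f x)) ∧
        (x ∉ L → IsOptimal (f x) (fun _ => 0)) := by
    intro L hL
    obtain ⟨f, hf, hpr, hfL⟩ := hardPr_unbounded L hL
    refine ⟨f, PC.toPolyTime hf, fun x => ⟨(hpr x).1, (hpr x).2.1, ⟨fun _ => 0, fun i => ?_⟩,
      (hfL x).1, fun hx => (hpr x).2.2.2.2 fun hu => hx ((hfL x).2 hu)⟩⟩
    rw [getD_zero_of (hpr x).2.2.2.1]
    simp
  refine ⟨fun p ε hε => Pool.Agent.H699.TA.main p hε, ?_, ?_, ?_⟩
  · intro I ⟨x0, hx0⟩ hu
    unfold UnboundedBelow at hu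
    push Not at hu
    obtain ⟨b, hb⟩ := hu
    obtain ⟨m, ⟨y, hy, hym⟩, hmin⟩ := Int.exists_least_of_bdd (P := fun z : ℤ =>
      ∃ y, Feasible I y ∧ obj I y = z) ⟨b, by rintro z ⟨y, hy, rfl⟩; exact hb y hy⟩
      ⟨_, x0, hx0, rfl⟩
    exact ⟨y, hy, fun z hz => hym ▸ hmin _ ⟨z, hz, rfl⟩⟩
  · intro L hL
    obtain ⟨f, hf, h⟩ := key L hL
    refine ⟨f, hf, fun x => ⟨(h x).1, (h x).2.1, (h x).2.2.1, fun hu => ?_, (h x).2.2.2.1⟩⟩
    by_contra hx
    obtain ⟨y, hy, hlt⟩ := hu (obj (f x) fun _ => 0)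
    exact absurd (((h x).2.2.2.2 hx).2 y hy) (not_le.2 hlt)
  · rintro p hp ε ⟨A, hA, hsolve⟩ L hL
    obtain ⟨f, hf, h⟩ := key L hL
    have h1 : PolyTime (fun x => A (bits (f x))) := Pool.Agent.H642R2.TMSim.polyTime_comp hA hf
    have h2 : NPC.Poly (fun y : List Bool => decide (y = unbounded)) :=
      NPC.Poly.decide_eq NPC.Poly.id (NPC.Poly.const _)
    refine ⟨_, polyTime_test h1 h2, fun x => ?_⟩
    obtain ⟨hv, hc, hfe, hin, hout⟩ := h x
    obtain ⟨_, s2, s3⟩ := hsolve (f x) hv (hc.trans hp)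
    simp only [List.cons.injEq, and_true, decide_eq_true_eq]
    constructor
    · intro hx
      exact s2 hfe (hin hx)
    · intro hA
      by_contra hx
      obtain ⟨y, _, hy⟩ := s3 ⟨_, hout hx⟩
      rw [hA] at hy
      have := bits_injective hy
      simp at this

end Pool.Agent.Results.MP_ed7369_lc.Resolution
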