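import Pool.Graph.R_seed8.NPC.Dec
import Pool.Agent.H699.TU.Final

/-!
# Separable indefinite quadratic integer programs with totally unimodular constraints

With two concave variables it is already `NP`-hard to tell whether the program is unbounded below,
even for homogeneous programs `min ∑ q_j x_j ^ 2` subject to `W x ≤ 0`.  So for every `p ≥ 2` and
every `ε` the algorithm asked for exists only if `P = NP`.
-/

namespace Pool.Agent.Results.MP_ed7369_lc.UnboundednessHard

open Pool.Agent.NPC Pool.Agent.H699.TU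

theorem result :
    (∀ L : Set (List Bool), InNP L → ∃ f : List Bool → Inst, PolyTime (fun x => bits (f x)) ∧
      ∀ x, Valid (f x) ∧ numConcave (f x) ≤ 2 ∧ (∀ c ∈ lin (f x), c = 0) ∧
        (∀ c ∈ rhs (f x), c = 0) ∧ (x ∈ L → UnboundedBelow (f x)) ∧
        (x ∉ L → IsOptimal (f x) (fun _ => 0))) ∧
    (∀ p : ℕ, 2 ≤ p → ∀ ε : ℝ, (∃ A : List Bool → List Bool, PolyTime A ∧ Solves p ε A) →
      ∀ L : Set (List Bool), InNP L → InP L) := by
  have key : ∀ L : Set (List Bool), InNP L → ∃ f : List Bool → Inst,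
      PolyTime (fun x => bits (f x)) ∧
      ∀ x, Valid (f x) ∧ numConcave (f x) ≤ 2 ∧ (∀ c ∈ lin (f x), c = 0) ∧
        (∀ c ∈ rhs (f x), c = 0) ∧ (x ∈ L → UnboundedBelow (f x)) ∧
        (x ∉ L → IsOptimal (f x) (fun _ => 0)) := by
    intro L hL
    obtain ⟨f, hf, hpr, hfL⟩ := hardPr_unbounded L hL
    exact ⟨f, PC.toPolyTime hf, fun x => ⟨(hpr x).1, (hpr x).2.1, (hpr x).2.2.1, (hpr x).2.2.2.1,
      (hfL x).1, fun hx => (hpr x).2.2.2.2 fun hu => hx ((hfL x).2 hu)⟩⟩
  refine ⟨key, ?_⟩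
  rintro p hp ε ⟨A, hA, hsolve⟩ L hL
  obtain ⟨f, hf, h⟩ := key L hL
  have h1 : PolyTime (fun x => A (bits (f x))) := Pool.Agent.H642R2.TMSim.polyTime_comp hA hf
  have h2 : NPC.Poly (fun y : List Bool => decide (y = unbounded)) :=
    NPC.Poly.decide_eq NPC.Poly.id (NPC.Poly.const _)
  refine ⟨_, polyTime_test h1 h2, fun x => ?_⟩
  obtain ⟨hv, hc, _, hr, hin, hout⟩ := h x
  obtain ⟨_, s2, s3⟩ := hsolve (f x) hv (hc.trans hp)
  simp only [List.cons.injEq, and_true, decide_eq_true_eq]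
  constructor
  · intro hx
    refine s2 ⟨fun _ => 0, fun i => ?_⟩ (hin hx)
    rw [getD_zero_of hr]
    simp
  · intro hA
    by_contra hx
    obtain ⟨y, _, hy⟩ := s3 ⟨_, hout hx⟩
    rw [hA] at hy
    have := bits_injective hy
    simp at this

end Pool.Agent.Results.MP_ed7369_lc.UnboundednessHard
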